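import Pool.Agent.helper11.RPQ.SpecI
import Pool.Agent.helper68.RPQ.THL

/-!
# Row rpi:THW (MP_07c750_an): the phases with a deterministic part `W`
-/

set_option autoImplicit false

open scoped MatrixGroups ContDiff Topology UpperHalfPlane ComplexConjugate ENNReal
open UpperHalfPlane MeasureTheory Filter Set

namespace Pool.Agent.RPQ

open Pool.Agent.RS
open Pool.Agent.MS (BA BB st pf gk Dk amk)

theorem THW_lin (hGLC : GLC_stmt) (J : ℕ) (χ : Fin J → ℍ → ℝ) (W : ℍ → ℝ) (s : ℝ) (hχ : ∀ j, Continuous (χ j)) (hW : Continuous W)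
    (ξ : Fin J → ℝ) (κ t : ℝ) (g : SL(2, ℝ)) :
    th (fun z => W z + s * VV χ ξ z) κ t g = th W κ t g + ∑ j, ξ j * th (χ j) (κ * s) t g := by
  have hV : Continuous (VV χ ξ) := by
    unfold VV
    exact continuous_finsetSum _ fun j _ => continuous_const.mul (hχ j)
  have h1 := (THL_cont1 hGLC W hW g).intervalIntegrable (μ := volume) 0 t
  have h20 : Continuous fun x : ℝ => s * VV χ ξ ((g * aM x) • I) := continuous_const.mul (THL_cont1 hGLC (VV χ ξ) hV g)
  have h2 := h20.intervalIntegrable (μ := volume) 0 t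
  have h3 : th (fun z => W z + s * VV χ ξ z) κ t g = κ * ∫ x in (0 : ℝ)..t, (W ((g * aM x) • I) + s * VV χ ξ ((g * aM x) • I)) := rfl
  have h4 : th W κ t g = κ * ∫ x in (0 : ℝ)..t, W ((g * aM x) • I) := rfl
  have h5 := THL_lin hGLC J χ hχ ξ (κ * s) t g
  have h6 : th (VV χ ξ) (κ * s) t g = (κ * s) * ∫ x in (0 : ℝ)..t, VV χ ξ ((g * aM x) • I) := rfl
  rw [h3, h4, intervalIntegral.integral_add h1 h2, intervalIntegral.integral_const_mul, ← h5, h6]
  ring

theorem THW_proof (hVXI : VXI_stmt) (hGLC : GLC_stmt) : THW_stmt := by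
  intro Γ J χ W s hχ hW
  obtain ⟨hp, -, -, hvx, -, -, -, -⟩ := hVXI
  have hc : ∀ (κ t : ℝ), Continuous (th W κ t) := by
    intro κ t
    unfold th
    exact continuous_const.mul (intervalIntegral.continuous_parametric_intervalIntegral_of_continuous'
      (THL_cont hGLC W hW.1) 0 t)
  have hlin : ∀ (ξ : Fin J → ℝ) (κ t : ℝ) (g : SL(2, ℝ)), th (fun z => W z + s * VV χ ξ z) κ t g = th W κ t g + ∑ j, ξ j * th (χ j) (κ * s) t g :=
    fun ξ κ t g => THW_lin hGLC J χ W s (fun j => (hχ j).1) hW.1 ξ κ t g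
  refine ⟨?_, hc, ?_, hlin, ?_⟩
  · intro ξ
    refine ⟨?_, ?_⟩
    · have hV : Continuous (VV χ ξ) := by
        unfold VV
        exact continuous_finsetSum _ fun j _ => continuous_const.mul (hχ j).1
      exact hW.1.add (continuous_const.mul hV)
    · intro γ z
      have h1 : VV χ ξ (γ • z) = VV χ ξ z := by
        unfold VV
        refine Finset.sum_congr rfl fun j _ => ?_
        rw [(hχ j).2 γ z]
      have h2 := hW.2 γ z
      show W (γ • z) + s * VV χ ξ (γ • z) = W z + s * VV χ ξ z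
      rw [h1, h2]
  · intro κ t N n
    have h1 : (fun p : (SL(2, ℝ) × SL(2, ℝ)) × (Fin n → SL(2, ℝ)) => TH W κ t N p.1.1 (ic t (vx p.1.1 p.1.2 p.2))) =
        fun p : (SL(2, ℝ) × SL(2, ℝ)) × (Fin n → SL(2, ℝ)) => ∑ i ∈ Finset.range N, th W κ t (vx p.1.1 p.1.2 p.2 i) := by
      funext p
      unfold TH
      refine Finset.sum_congr rfl fun i _ => ?_
      have h2 := hp t (vx p.1.1 p.1.2 p.2) i
      have h3 : vx p.1.1 p.1.2 p.2 0 = p.1.1 := rfl
      rw [h3] at h2
      rw [h2]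
    rw [h1]
    exact continuous_finsetSum _ fun i _ => (hc κ t).comp (hvx n i)
  · intro ξ κ t N g b
    unfold TH
    rw [Finset.sum_congr rfl (fun i _ => hlin ξ κ t (pth t g b i)), Finset.sum_add_distrib, Finset.sum_comm]
    congr 1
    refine Finset.sum_congr rfl fun j _ => ?_
    rw [Finset.mul_sum]

end Pool.Agent.RPQ
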