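import Pool.Agent.helper11.RPQ.SpecI
import Pool.Agent.helper25.RPQ.WEX

/-!
# Row rpi:WEW (MP_07c750_an): the second moment of the words with a deterministic phase `W`
-/

set_option autoImplicit false

open scoped MatrixGroups ContDiff Topology UpperHalfPlane ComplexConjugate ENNReal
open UpperHalfPlane MeasureTheory Filter Set

namespace Pool.Agent.RPQ

open Pool.Agent.RS
open Pool.Agent.MS (BA BB st pf gk Dk amk)

noncomputable section

theorem WEW_proof (hWXW : WXW_stmt) (hPAR : PAR_stmt) (hUTM : UTM_stmt) (hMCV : MCV_stmt) (hBLK : BLK_stmt) (hCNT : CNT_stmt) : WEW_stmt := by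
  intro Γ F α β κ C0 B θ C1 L N hΓ hF hα hβ hκ hB hθ hC1 hL hBL
  have hNL : (0 : ℝ) < 100 * ((N : ℝ) + L + 2) := by positivity
  obtain ⟨η, hηdef⟩ : ∃ η : ℝ, η = 1 / (100 * ((N : ℝ) + L + 2)) := ⟨_, rfl⟩
  have hη : 0 < η := by rw [hηdef]; positivity
  have hηm : (100 * ((N : ℝ) + L + 2)) * η = 1 := by
    rw [hηdef]
    field_simp
  have hη' : η ≤ 1 / 20 := by
    have h1 : 0 ≤ (N : ℝ) * η := by positivity
    have h2 : 0 ≤ (L : ℝ) * η := by positivity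
    nlinarith
  obtain ⟨C2, RU, hC2, hRU, hU⟩ := hUTM α β hα hβ η η hη hη' hη hη'
  refine ⟨η, η, C2, hη, hη', hη, hη', hC2, ?_⟩
  intro C hC
  have hC1' : 1 ≤ C := le_trans hC2 hC
  obtain ⟨cM, RM, hcM, hRM, hM⟩ := hMCV C η η N hC1' hη hη' hη hη'
  obtain ⟨cB, RB, hcB, hRB, hBl⟩ := hBLK Γ C η η N hΓ hC1' hη hη' hη hη'
  obtain ⟨cC, ρ10, RC, hcC, hρ10, hRC, hCn⟩ := WEX_cnt hCNT Γ κ C η η N hΓ hC1' hη hη' hη hη'
  obtain ⟨C', hC'def⟩ : ∃ C' : ℝ, C' = cM + cB + cC := ⟨_, rfl⟩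
  have hC'1 : 1 ≤ C' := by linarith
  obtain ⟨RW, hRW, hW⟩ := hWXW N L η η θ B (max C1 1) C' hL hη hη (by nlinarith [mul_nonneg (Nat.cast_nonneg (α := ℝ) N) hη.le, mul_nonneg (Nat.cast_nonneg (α := ℝ) L) hη.le])
    hθ hB (le_max_right _ _) hC'1 hBL
  obtain ⟨RP, hRP, hP⟩ := hPAR (N + 1) η (2 * N + B + 10) C' ρ10 (8 * ((N + 1 : ℕ) : ℝ)) (Nat.le_add_left 1 N) hη
    (by have := Nat.cast_nonneg (α := ℝ) N; linarith) hC'1 hρ10 le_rfl
  refine ⟨8 * ((N + 1 : ℕ) : ℝ), 3 + RU + RM + RB + RC + RW + RP, ?_, by linarith, ?_⟩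
  · push_cast
    have := Nat.cast_nonneg (α := ℝ) N
    linarith
  intro R ρ s K J p χ W A l hR hρ1 hρ2 hK hnet hWinv hA hinv hvol hlen hstp hsum
  have hRU' : RU ≤ R := by linarith
  have hRM' : RM ≤ R := by linarith
  have hRB' : RB ≤ R := by linarith
  have hRC' : RC ≤ R := by linarith
  have hRW' : RW ≤ R := by linarith
  have hRP' : RP ≤ R := by linarith
  have hR3 : 3 ≤ R := by linarith
  have hR0 : 0 < R := by linarith
  have hlog1 : 1 ≤ Real.log R := by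
    rw [Real.le_log_iff_exp_le hR0]
    have := Real.exp_one_lt_d9
    linarith
  have hlog0 : 0 < Real.log R := by linarith
  have hρ : 0 < ρ := lt_of_lt_of_le (by positivity) hρ1
  obtain ⟨nc, n1, n2, n3, n4⟩ := hP R ρ hRP' hρ hρ2
  have hnst1 : 1 ≤ nst l := WEX_nst l (by rw [hlen]; exact hL)
  have hnstN : nst l ≤ N := hsum
  obtain ⟨n5, n6⟩ := n4 (nst l) hnst1 (le_trans hnstN (Nat.le_succ N))
  have hlogρ : 0 ≤ Real.log (1 / (Real.log R) ^ (-(8 * ((N + 1 : ℕ) : ℝ)))) := by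
    rw [Real.rpow_neg hlog0.le, one_div, inv_inv]
    exact Real.log_nonneg (Real.one_le_rpow hlog1 (by positivity))
  obtain ⟨u1, u2, u3⟩ := hU C R hC hRU'
  have hR8 : 0 ≤ R ^ (1 / 8 : ℝ) := Real.rpow_nonneg hR0.le _
  have hWH : WH Γ F N L η η θ B (max C1 1) C' C R (K * s) J nc ⌊R ^ (1 / 8 : ℝ)⌋₊ χ (ut β α C η η R) A l := by
    refine ⟨hnet.inv, u1, u3, hA, hinv, ?_, n1, hlen, hstp, hnstN, ?_, ?_, ?_, Nat.floor_le hR8⟩
    · refine le_trans hvol (ENNReal.ofReal_le_ofReal ?_)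
      exact mul_le_mul_of_nonneg_right (le_max_left _ _) (Real.rpow_nonneg hR0.le _)
    · intro n hn g h
      refine le_trans (hM R hRM' n hn g h).1 (ENNReal.ofReal_le_ofReal ?_)
      exact mul_le_mul_of_nonneg_right (by linarith) (Real.rpow_nonneg hR0.le _)
    · intro n hn hn' g h
      refine le_trans (hBl R hRB' n hn hn' g h) (ENNReal.ofReal_le_ofReal ?_)
      exact mul_le_mul_of_nonneg_right (by linarith) (Real.rpow_nonneg hR0.le _)
    · intro g h b hb hpth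
      obtain ⟨m1, m2⟩ := hCn C' (by linarith) (nst l) hnst1 hnstN C0 ρ _ (K * s) R J p χ nc g h b hRC' hρ n2 n3 hK n5 hnet hb hlogρ
      have m3 := Nat.le_floor (le_trans m2 n6)
      rw [← m1.cast_ncard_eq]
      exact_mod_cast m3
  exact hW Γ F C R s K J nc ⌊R ^ (1 / 8 : ℝ)⌋₊ χ W (ut β α C η η R) A l hΓ hF hRW' hC1' hWinv hWH

end

end Pool.Agent.RPQ
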